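import Pool.Agent.P.MP_7b7e09_gt.Core

namespace Pool.Agent.Results.MP_7b7e09_gt.Q1Counterexample

open Pool.Agent.P.MP_7b7e09_gt

/-- The unit interval has the polarized partition property P but fails S_1(Omega, Omega). -/
theorem result : Polarized (Set.Icc (0 : ℝ) 1) ∧ ¬ SOne (Set.Icc (0 : ℝ) 1) :=
  ⟨polarized_of_isCompact isCompact_Icc, not_sOne_Icc⟩

end Pool.Agent.Results.MP_7b7e09_gt.Q1Counterexample
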