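import Pool.Agent.P.MP_7b7e09_gt.Card

namespace Pool.Agent.Results.MP_7b7e09_gt.Q2CriticalCardinality

open Pool.Agent.P.MP_7b7e09_gt

/-- The critical cardinality of the polarized partition property P is the minimum of the
dominating number and the ultrafilter number. -/
theorem result : nonPolarized = min dominatingNumber ultrafilterNumber :=
  nonPolarized_eq

end Pool.Agent.Results.MP_7b7e09_gt.Q2CriticalCardinality
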